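import Pool.Agent.Q108.OCP.Checks

/-!
# MP_42d775_co: a Berge graph without even pairs and without odd pairs of maximal cliques, in which
neither the graph nor its complement has one

The graph `Q108.OCP.G` has 29 vertices. It arises from the 3 x 3 rook's graph minus a vertex (the
line graph of `K_{3,3}` minus an edge) by substituting copies of the same graph for three vertices.
-/

set_option autoImplicit false

namespace Pool.Agent.Results.MP_42d775_co.SubstitutedRook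

open SimpleGraph Q108.OCP

/-- There is an induced path with `n` edges between `u` and `v`. -/
def InducedPath {V : Type} (H : SimpleGraph V) (n : ℕ) (u v : V) : Prop :=
  ∃ f : pathGraph (n + 1) ↪g H, f 0 = u ∧ f (Fin.last n) = v

/-- An even pair: distinct non-adjacent vertices all of whose induced paths have even length. -/
def IsEvenPair {V : Type} (H : SimpleGraph V) (u v : V) : Prop :=
  u ≠ v ∧ ¬ H.Adj u v ∧ ∀ n : ℕ, InducedPath H n u v → Even n

/-- There is an external induced path with `n` edges from `K₁` to `K₂`: one end is in `K₁`, the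
other end is in `K₂`, and every other vertex is outside `K₁ ∪ K₂`. -/
def ExternalPath {V : Type} (H : SimpleGraph V) (K₁ K₂ : Set V) (n : ℕ) : Prop :=
  ∃ f : pathGraph (n + 1) ↪g H, f 0 ∈ K₁ ∧ f (Fin.last n) ∈ K₂ ∧
    ∀ j : Fin (n + 1), j ≠ 0 → j ≠ Fin.last n → f j ∉ K₁ ∪ K₂

/-- An odd pair of cliques: all external induced paths have odd length. -/
def IsOddPairOfCliques {V : Type} (H : SimpleGraph V) (K₁ K₂ : Set V) : Prop :=
  H.IsClique K₁ ∧ H.IsClique K₂ ∧ ∀ n : ℕ, ExternalPath H K₁ K₂ n → Odd n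

/-- A maximal clique. -/
def IsMaximalClique {V : Type} (H : SimpleGraph V) (K : Set V) : Prop :=
  H.IsClique K ∧ ∀ K' : Set V, H.IsClique K' → K ⊆ K' → K' = K

/-- A Berge graph: no odd hole and no odd antihole (odd holes have at least five vertices). -/
def IsBerge {V : Type} (H : SimpleGraph V) : Prop :=
  ∀ n : ℕ, 4 ≤ n → Odd n →
    ¬ Nonempty (cycleGraph n ↪g H) ∧ ¬ Nonempty ((cycleGraph n)ᶜ ↪g H)

theorem G_berge : IsBerge G := by
  intro n hn hodd
  have h5 : 5 ≤ n := by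
    rcases Nat.eq_or_lt_of_le hn with h | h
    · subst h
      exact absurd hodd (by decide)
    · exact h
  refine ⟨no_hole n h5 hodd, ?_⟩
  rintro ⟨g⟩
  exact no_cohole n h5 hodd ⟨Pool.Agent.H171R2.Hole.complEmb _ _ g⟩

theorem no_even_pair (A : ℕ → ℕ) (H : SimpleGraph (Fin 29))
    (hA : ∀ u v : Fin 29, H.Adj u v ↔ (A u).testBit v = true)
    (h : ∀ u v : Fin 29, u ≠ v → (A u).testBit v = true ∨ q3 A u v = true) :
    ∀ u v, ¬ IsEvenPair H u v := by
  rintro u v ⟨huv, hna, hev⟩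
  rcases h u v huv with h1 | h1
  · exact hna ((hA u v).2 h1)
  · obtain ⟨p, hp, h1⟩ := anyB_spec _ _ h1
    obtain ⟨a1, h1⟩ := cond_spec _ _ h1
    obtain ⟨a2, h1⟩ := cond_spec _ _ h1
    obtain ⟨q, hq, h1⟩ := anyB_spec _ _ h1
    obtain ⟨a3, h1⟩ := cond_spec _ _ h1
    obtain ⟨a4, a5⟩ := cond_spec _ _ h1
    rw [Bool.not_eq_true'] at a2 a5
    obtain ⟨P, hP⟩ : ∃ P : Fin 29, P.val = p := ⟨⟨p, hp⟩, rfl⟩
    obtain ⟨Q, hQ⟩ : ∃ Q : Fin 29, Q.val = q := ⟨⟨q, hq⟩, rfl⟩
    subst hP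
    subst hQ
    have b1 : H.Adj u P := (hA _ _).2 a1
    have b2 : ¬ H.Adj v P := fun hh => by rw [(hA _ _).1 hh] at a2; exact absurd a2 (by decide)
    have b3 : H.Adj P Q := (hA _ _).2 a3
    have b4 : H.Adj v Q := (hA _ _).2 a4
    have b5 : ¬ H.Adj u Q := fun hh => by rw [(hA _ _).1 hh] at a5; exact absurd a5 (by decide)
    have hpath : InducedPath H 3 u v := by
      refine ⟨⟨⟨![u, P, Q, v], ?_⟩, ?_⟩, rfl, rfl⟩
      · intro i j hij
        have c1 : u ≠ P := b1.ne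
        have c2 : u ≠ Q := fun hh => hna (hh ▸ b4.symm)
        have c3 : P ≠ Q := b3.ne
        have c4 : P ≠ v := fun hh => hna (hh ▸ b1)
        have c5 : Q ≠ v := b4.ne'
        fin_cases i <;> fin_cases j <;> simp_all
      · intro i j
        rw [pathGraph_adj]
        change H.Adj (![u, P, Q, v] i) (![u, P, Q, v] j) ↔ _
        have d2 : ¬ H.Adj P v := fun hh => b2 hh.symm
        have d5 : ¬ H.Adj Q u := fun hh => b5 hh.symm
        have d6 : ¬ H.Adj v u := fun hh => hna hh.symm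
        fin_cases i <;> fin_cases j <;>
          simp [b1, b1.symm, b2, b3, b3.symm, b4, b4.symm, b5, d2, d5, d6, hna]
    exact absurd (hev 3 hpath) (by decide)

theorem mask_mem (A : ℕ → ℕ) (H : SimpleGraph (Fin 29)) (L : List ℕ)
    (hA : ∀ u v : Fin 29, H.Adj u v ↔ (A u).testBit v = true)
    (hirr : ∀ w, (A w).testBit w = false)
    (hL : enumC A (fun K => L.contains K) 29 0 0 536870911 = true)
    (K : Set (Fin 29)) (hK : IsMaximalClique H K) :
    ∃ κ ∈ L, (∀ w, κ.testBit w = true → w < 29) ∧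
      ∀ i : Fin 29, κ.testBit i.val = true ↔ i ∈ K := by
  classical
  obtain ⟨κ, hκ⟩ : ∃ κ : ℕ, κ = Nat.ofBits fun i : Fin 29 => decide (i ∈ K) := ⟨_, rfl⟩
  have hbit : ∀ i : Fin 29, κ.testBit i.val = true ↔ i ∈ K := by
    intro i
    rw [hκ, Nat.testBit_ofBits_lt _ _ i.isLt]
    simp
  have hlt : ∀ w, κ.testBit w = true → w < 29 := by
    intro w hw
    by_contra hge
    have h1 : κ < 2 ^ w :=
      lt_of_lt_of_le (hκ ▸ Nat.ofBits_lt_two_pow _) (Nat.pow_le_pow_right (by norm_num) (by omega))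
    rw [Nat.testBit_lt_two_pow h1] at hw
    exact absurd hw (by decide)
  refine ⟨κ, ?_, hlt, hbit⟩
  have hs := enumC_sound (N := 29) A (fun K => L.contains K) κ hlt hirr ?_ ?_ 29 0 0 536870911
    rfl ?_ ?_ hL
  · simpa using hs
  · intro x y hx hy hxy
    have hx' := hlt x hx
    have hy' := hlt y hy
    have h1 := (hbit ⟨x, hx'⟩).1 hx
    have h2 := (hbit ⟨y, hy'⟩).1 hy
    exact (hA ⟨x, hx'⟩ ⟨y, hy'⟩).1 (hK.1 h1 h2 (fun h => hxy (congrArg Fin.val h)))
  · intro w hw hwκ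
    have hwK : (⟨w, hw⟩ : Fin 29) ∉ K := fun h => by
      rw [(hbit ⟨w, hw⟩).2 h] at hwκ
      exact absurd hwκ (by decide)
    by_contra hcon
    push Not at hcon
    have hcl : H.IsClique (insert (⟨w, hw⟩ : Fin 29) K) := by
      rw [isClique_insert]
      refine ⟨hK.1, fun b hb _ => ?_⟩
      have h1 := hcon b.val ((hbit b).2 hb)
      exact ((hA b ⟨w, hw⟩).2 (by simpa using h1)).symm
    have h2 := hK.2 _ hcl (Set.subset_insert _ _)
    exact hwK (h2 ▸ Set.mem_insert _ _)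
  · intro w
    simp
  · intro w
    rw [show (536870911 : ℕ) = 2 ^ 29 - 1 by norm_num, Nat.testBit_two_pow_sub_one]
    simp

theorem no_odd_pair (A : ℕ → ℕ) (H : SimpleGraph (Fin 29)) (L : List ℕ)
    (hA : ∀ u v : Fin 29, H.Adj u v ↔ (A u).testBit v = true)
    (hirr : ∀ w, (A w).testBit w = false)
    (hL : enumC A (fun K => L.contains K) 29 0 0 536870911 = true)
    (hP : pairs A L = true) (K₁ K₂ : Set (Fin 29)) (h1 : IsMaximalClique H K₁)
    (h2 : IsMaximalClique H K₂) : ¬ IsOddPairOfCliques H K₁ K₂ := by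
  rintro ⟨-, -, hodd⟩
  obtain ⟨κ₁, hκ₁, hw₁, hb₁⟩ := mask_mem A H L hA hirr hL K₁ h1
  obtain ⟨κ₂, hκ₂, -, hb₂⟩ := mask_mem A H L hA hirr hL K₂ h2
  have hs1 : ∀ a b : Fin (0 + 1), a = b := fun a b => Fin.ext (by omega)
  rw [pairs, List.all_eq_true] at hP
  have h3 := hP κ₁ hκ₁
  rw [List.all_eq_true] at h3
  have h4 := h3 κ₂ hκ₂
  rw [Bool.or_eq_true] at h4
  by_cases hcom : ∃ i : Fin 29, i ∈ K₁ ∧ i ∈ K₂
  · obtain ⟨i, hi1, hi2⟩ := hcom
    have hp : ExternalPath H K₁ K₂ 0 := by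
      refine ⟨⟨⟨fun _ => i, ?_⟩, ?_⟩, hi1, hi2, ?_⟩
      · intro a b _
        exact hs1 a b
      · intro a b
        have hab : a = b := hs1 a b
        subst hab
        simp
      · intro j hj
        exact absurd (hs1 j 0) hj
    exact absurd (hodd 0 hp) (by decide)
  · have h5 : pc A κ₁ κ₂ = true := by
      rcases h4 with h4 | h4
      · exfalso
        rw [bne_iff_ne] at h4
        obtain ⟨w, hw⟩ := Nat.exists_testBit_ne_of_ne h4
        rw [Nat.zero_testBit, Nat.testBit_land] at hw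
        have hw' : κ₁.testBit w = true ∧ κ₂.testBit w = true := by simpa using hw
        have hlt : w < 29 := hw₁ w hw'.1
        exact hcom ⟨⟨w, hlt⟩, (hb₁ ⟨w, hlt⟩).1 hw'.1, (hb₂ ⟨w, hlt⟩).1 hw'.2⟩
      · exact h4
    obtain ⟨h, hh, h5⟩ := anyB_spec _ _ h5
    obtain ⟨a0, h5⟩ := cond_spec _ _ h5
    obtain ⟨x, hx, h5⟩ := anyB_spec _ _ h5
    obtain ⟨a1, h5⟩ := cond_spec _ _ h5
    obtain ⟨y, hy, h5⟩ := anyB_spec _ _ h5
    obtain ⟨a2, a3⟩ := cond_spec _ _ h5
    rw [Nat.testBit_land, Bool.and_eq_true] at a1 a2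
    rw [Bool.not_eq_true'] at a0 a3
    rw [Nat.testBit_or, Bool.or_eq_false_iff] at a0
    obtain ⟨h', rfl⟩ : ∃ h' : Fin 29, h'.val = h := ⟨⟨h, hh⟩, rfl⟩
    obtain ⟨x', rfl⟩ : ∃ x' : Fin 29, x'.val = x := ⟨⟨x, hx⟩, rfl⟩
    obtain ⟨y', rfl⟩ : ∃ y' : Fin 29, y'.val = y := ⟨⟨y, hy⟩, rfl⟩
    have c1 : H.Adj h' x' := (hA _ _).2 a1.2
    have c2 : H.Adj h' y' := (hA _ _).2 a2.2
    have c3 : ¬ H.Adj x' y' := fun hc => by
      rw [(hA _ _).1 hc] at a3
      exact absurd a3 (by decide)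
    have c4 : x' ∈ K₁ := (hb₁ x').1 a1.1
    have c5 : y' ∈ K₂ := (hb₂ y').1 a2.1
    have c6 : h' ∉ K₁ := fun hc => by
      rw [(hb₁ h').2 hc] at a0
      exact absurd a0.1 (by decide)
    have c7 : h' ∉ K₂ := fun hc => by
      rw [(hb₂ h').2 hc] at a0
      exact absurd a0.2 (by decide)
    have c8 : x' ≠ y' := fun hc => hcom ⟨x', c4, hc ▸ c5⟩
    have hp : ExternalPath H K₁ K₂ 2 := by
      refine ⟨⟨⟨![x', h', y'], ?_⟩, ?_⟩, c4, c5, ?_⟩
      · intro i j hij
        have d1 := c1.ne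
        have d2 := c2.ne
        fin_cases i <;> fin_cases j <;> simp_all
      · intro i j
        rw [pathGraph_adj]
        change H.Adj (![x', h', y'] i) (![x', h', y'] j) ↔ _
        have d3 : ¬ H.Adj y' x' := fun hc => c3 hc.symm
        fin_cases i <;> fin_cases j <;> simp [c1, c1.symm, c2, c2.symm, c3, d3]
      · intro j hj1 hj2
        have : j = 1 := by
          fin_cases j
          · exact absurd rfl hj1
          · rfl
          · exact absurd rfl hj2
        subst this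
        rintro (hc | hc)
        · exact c6 hc
        · exact c7 hc
    exact absurd (hodd 2 hp) (by decide)

/-- The answer to Q1 is negative: it is not true that for every Berge graph `G` on at least two
vertices `G` or its complement has an even pair or an odd pair of maximal cliques. -/
theorem result :
    ¬ ∀ (V : Type) [Fintype V] (G : SimpleGraph V), IsBerge G → 2 ≤ Fintype.card V →
      ((∃ u v, IsEvenPair G u v) ∨ (∃ u v, IsEvenPair Gᶜ u v) ∨
        (∃ K₁ K₂ : Set V, IsMaximalClique G K₁ ∧ IsMaximalClique G K₂ ∧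
          IsOddPairOfCliques G K₁ K₂) ∨
        (∃ K₁ K₂ : Set V, IsMaximalClique Gᶜ K₁ ∧ IsMaximalClique Gᶜ K₂ ∧
          IsOddPairOfCliques Gᶜ K₁ K₂)) := by
  intro h
  rcases h (Fin 29) G G_berge (by simp) with ⟨u, v, h1⟩ | ⟨u, v, h1⟩ | ⟨K₁, K₂, h1, h2, h3⟩ |
    ⟨K₁, K₂, h1, h2, h3⟩
  · exact no_even_pair adj G G_adj q3G u v h1
  · exact no_even_pair coadj Gᶜ Gc_adj q3Gc u v h1
  · exact no_odd_pair adj G mcL G_adj irrG enumG pairsG K₁ K₂ h1 h2 h3
  · exact no_odd_pair coadj Gᶜ mccL Gc_adj irrGc enumGc pairsGc K₁ K₂ h1 h2 h3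

end Pool.Agent.Results.MP_42d775_co.SubstitutedRook
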